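import Mathlib
import Pool.Agent.KS6_1.RF.Slot

set_option autoImplicit false

/-!
# Slotted random access with success/failure feedback: one protocol for all small arrival rates

There is a single rule `(p, success bit) ↦ f p b` such that for every arrival rate `lam` with
`0 < lam ≤ 2 ^ (-18)` the backlog/probability chain has a stationary probability distribution.
-/

namespace Pool.Agent.Results.MP_ba3ff3_pr.OneProtocol

/-- Probability that exactly one of `w` packets attempts, if each attempts with probability `p`. -/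
noncomputable def succ (w : ℕ) (p : ℝ) : ℝ := (w : ℝ) * p * (1 - p) ^ (w - 1)

/-- Poisson(`lam`) probability of `a` arrivals in a slot. -/
noncomputable def poisson (lam : ℝ) (a : ℕ) : ℝ := Real.exp (-lam) * lam ^ a / (a.factorial : ℝ)

open Classical in
/-- Transition probability of the chain `(W_n, p_n)` from `(w, p)` to `(w', p')` for the protocol
`f` and the arrival rate `lam`: either a success (one packet leaves, `p' = f p true`) or no success
(`p' = f p false`), followed by the arrivals of the slot. -/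
noncomputable def trans (lam : ℝ) (f : ℝ → Bool → ℝ) (x y : ℕ × ℝ) : ℝ :=
  (if x.1 ≤ y.1 + 1 ∧ f x.2 true = y.2 then succ x.1 x.2 * poisson lam (y.1 + 1 - x.1) else 0) +
  (if x.1 ≤ y.1 ∧ f x.2 false = y.2 then (1 - succ x.1 x.2) * poisson lam (y.1 - x.1) else 0)

/-- `π` is a stationary probability distribution of the chain on `ℕ × [0, 1]`. -/
def Stationary (lam : ℝ) (f : ℝ → Bool → ℝ) (π : ℕ × ℝ → ℝ) : Prop :=
  (∀ x, 0 ≤ π x) ∧ (∀ x, π x ≠ 0 → x.2 ∈ Set.Icc (0 : ℝ) 1) ∧ Summable π ∧ ∑' x, π x = 1 ∧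
    ∀ y, π y = ∑' x, π x * trans lam f x y

theorem result : ∃ f : ℝ → Bool → ℝ,
    (∀ p ∈ Set.Icc (0 : ℝ) 1, ∀ b : Bool, f p b ∈ Set.Icc (0 : ℝ) 1) ∧
    ∀ lam : ℝ, 0 < lam → lam ≤ 1 / 2 ^ 18 → ∃ π : ℕ × ℝ → ℝ, Stationary lam f π := by
  obtain ⟨f, h1, h2⟩ := KS6_1.RF.Slot.main
  refine ⟨f, h1, fun lam h3 h4 => ?_⟩
  obtain ⟨π, a1, a2, a3, a4, a5⟩ := h2 lam h3 h4
  refine ⟨fun x => π x.1 x.2, fun x => a1 _ _, fun x hx => a2 _ _ hx, a3, a4, fun y => ?_⟩
  show π y.1 y.2 = _
  rw [a5]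
  refine tsum_congr fun x => ?_
  show _ = π x.1 x.2 * trans lam f x y
  congr 1

end Pool.Agent.Results.MP_ba3ff3_pr.OneProtocol
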